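import Pool.Agent.LE.StmtsQD
import Pool.Agent.Helper28_LSP.VDC

/-!
# Row BES (squad LQD): the kernel `jb t n` is `O(t ^ (-1/3))`
-/

set_option autoImplicit false

open MeasureTheory Set Complex

noncomputable section

namespace Pool.Agent.LE.QD.H45

open Pool.Agent.LE.H28V

theorem cos_low {r φ : ℝ} (hr : 0 ≤ r) (hr1 : r ≤ 1) (hφ : |φ| ≤ Real.pi / 2 - r) :
    r / 2 ≤ Real.cos φ := by
  have hpi := Real.pi_pos
  have hpi3 := Real.pi_gt_three
  have hpi4 : Real.pi ≤ 4 := Real.pi_le_four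
  have h1 : Real.cos (Real.pi / 2 - r) ≤ Real.cos |φ| :=
    Real.cos_le_cos_of_nonneg_of_le_pi (abs_nonneg _) (by linarith) hφ
  rw [Real.cos_abs, Real.cos_pi_div_two_sub] at h1
  have h2 : 2 / Real.pi * r ≤ Real.sin r := Real.mul_le_sin hr (by linarith)
  have h3 : (1 : ℝ) / 2 ≤ 2 / Real.pi := by
    rw [div_le_div_iff₀ (by norm_num) hpi]
    linarith
  have h4 : 1 / 2 * r ≤ 2 / Real.pi * r := mul_le_mul_of_nonneg_right h3 hr
  linarith

theorem bes_pos {t : ℝ} (n : ℤ) (ht : 1 ≤ t) : ‖jb t n‖ ≤ 28 * t ^ (-(1 / 3 : ℝ)) := by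
  have hpi := Real.pi_pos
  have hpi3 := Real.pi_gt_three
  have ht0 : 0 < t := by linarith
  set r : ℝ := t ^ (-(1 / 3 : ℝ)) with hr
  have hr0 : 0 < r := Real.rpow_pos_of_pos ht0 _
  have hr1 : r ≤ 1 := Real.rpow_le_one_of_one_le_of_nonpos ht (by norm_num)
  -- the quantity `t r`
  have htr : t * r = (t ^ (1 / 3 : ℝ)) ^ 2 := by
    rw [hr, ← Real.rpow_natCast, ← Real.rpow_mul ht0.le]
    nth_rewrite 1 [← Real.rpow_one t]
    rw [← Real.rpow_add ht0]
    norm_num
  have hp3 : 0 < t ^ (1 / 3 : ℝ) := Real.rpow_pos_of_pos ht0 _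
  have hsq : 8 / Real.sqrt (t * r) = 8 * r := by
    rw [htr, Real.sqrt_sq hp3.le, hr, Real.rpow_neg ht0.le]
    rfl
  have hmu : 0 < t * r := mul_pos ht0 hr0
  set F : ℝ → ℝ := fun θ => n * θ + 2 * t * Real.cos θ with hF
  set F1 : ℝ → ℝ := fun θ => n - 2 * t * Real.sin θ with hF1
  set F2 : ℝ → ℝ := fun θ => -(2 * t * Real.cos θ) with hF2
  have dF : ∀ x, HasDerivAt F (F1 x) x := by
    intro x
    have h1 := ((hasDerivAt_id x).const_mul (n : ℝ)).add ((Real.hasDerivAt_cos x).const_mul (2 * t))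
    refine h1.congr_deriv ?_
    simp only [hF1]
    ring
  have dF1 : ∀ x, HasDerivAt F1 (F2 x) x := by
    intro x
    have h1 := ((Real.hasDerivAt_sin x).const_mul (2 * t)).const_sub (n : ℝ)
    exact h1
  have cF : Continuous F := continuous_iff_continuousAt.2 fun x => (dF x).continuousAt
  have cF2 : Continuous F2 := by
    simp only [hF2]
    fun_prop
  have hcos : ∀ x, Real.cos x ≤ Real.cos x := fun _ => le_rfl
  -- the good intervals
  have hlow : ∀ x φ : ℝ, |φ| ≤ Real.pi / 2 - r → Real.cos x = Real.cos φ → F2 x ≤ -(t * r) := by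
    intro x φ hφ hx
    have h1 := cos_low hr0.le hr1 hφ
    have h2 : t * (r / 2) ≤ t * Real.cos φ := mul_le_mul_of_nonneg_left h1 ht0.le
    simp only [hF2]
    rw [hx]
    linarith
  have hhigh : ∀ x φ : ℝ, |φ| ≤ Real.pi / 2 - r → Real.cos x = -Real.cos φ → t * r ≤ F2 x := by
    intro x φ hφ hx
    have h1 := cos_low hr0.le hr1 hφ
    have h2 : t * (r / 2) ≤ t * Real.cos φ := mul_le_mul_of_nonneg_left h1 ht0.le
    simp only [hF2]
    rw [hx]
    linarith
  have I1 : ‖∫ x in (0 : ℝ)..(Real.pi / 2 - r), cexp (I * F x)‖ ≤ 8 * r := by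
    rw [← hsq]
    refine vdc2n (by linarith) (fun x _ => dF x) (fun x _ => dF1 x) cF2.continuousOn hmu ?_
    intro x hx
    exact hlow x x (by rw [abs_of_nonneg hx.1]; exact hx.2) rfl
  have I3 : ‖∫ x in (Real.pi / 2 + r)..(3 * Real.pi / 2 - r), cexp (I * F x)‖ ≤ 8 * r := by
    rw [← hsq]
    refine vdc2 (by linarith) (fun x _ => dF x) (fun x _ => dF1 x) cF2.continuousOn hmu ?_
    intro x hx
    refine hhigh x (x - Real.pi) ?_ ?_
    · rw [abs_le]
      constructor <;> linarith [hx.1, hx.2]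
    · rw [Real.cos_sub_pi, neg_neg]
  have I5 : ‖∫ x in (3 * Real.pi / 2 + r)..(2 * Real.pi), cexp (I * F x)‖ ≤ 8 * r := by
    rw [← hsq]
    refine vdc2n (by linarith) (fun x _ => dF x) (fun x _ => dF1 x) cF2.continuousOn hmu ?_
    intro x hx
    refine hlow x (x - 2 * Real.pi) ?_ ?_
    · rw [abs_le]
      constructor <;> linarith [hx.1, hx.2]
    · rw [Real.cos_sub_two_pi]
  have I2 : ‖∫ x in (Real.pi / 2 - r)..(Real.pi / 2 + r), cexp (I * F x)‖ ≤ 2 * r :=
    (norm_int_le (by linarith)).trans (by linarith)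
  have I4 : ‖∫ x in (3 * Real.pi / 2 - r)..(3 * Real.pi / 2 + r), cexp (I * F x)‖ ≤ 2 * r :=
    (norm_int_le (by linarith)).trans (by linarith)
  have hint : ∀ a b : ℝ, IntervalIntegrable (fun x => cexp (I * F x)) volume a b := by
    intro a b
    apply Continuous.intervalIntegrable
    exact Complex.continuous_exp.comp
      (continuous_const.mul (Complex.continuous_ofReal.comp cF))
  have hsum : ∫ x in (0 : ℝ)..(2 * Real.pi), cexp (I * F x)
      = (∫ x in (0 : ℝ)..(Real.pi / 2 - r), cexp (I * F x))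
      + (∫ x in (Real.pi / 2 - r)..(Real.pi / 2 + r), cexp (I * F x))
      + (∫ x in (Real.pi / 2 + r)..(3 * Real.pi / 2 - r), cexp (I * F x))
      + (∫ x in (3 * Real.pi / 2 - r)..(3 * Real.pi / 2 + r), cexp (I * F x))
      + ∫ x in (3 * Real.pi / 2 + r)..(2 * Real.pi), cexp (I * F x) := by
    rw [intervalIntegral.integral_add_adjacent_intervals (hint _ _) (hint _ _),
      intervalIntegral.integral_add_adjacent_intervals (hint _ _) (hint _ _),
      intervalIntegral.integral_add_adjacent_intervals (hint _ _) (hint _ _),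
      intervalIntegral.integral_add_adjacent_intervals (hint _ _) (hint _ _)]
  have htot : ‖∫ x in (0 : ℝ)..(2 * Real.pi), cexp (I * F x)‖ ≤ 28 * r := by
    rw [hsum]
    refine (norm_add_le _ _).trans ?_
    have h1 := norm_add_le ((∫ x in (0 : ℝ)..(Real.pi / 2 - r), cexp (I * F x))
      + (∫ x in (Real.pi / 2 - r)..(Real.pi / 2 + r), cexp (I * F x))
      + (∫ x in (Real.pi / 2 + r)..(3 * Real.pi / 2 - r), cexp (I * F x)))
      (∫ x in (3 * Real.pi / 2 - r)..(3 * Real.pi / 2 + r), cexp (I * F x))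
    have h2 := norm_add_le ((∫ x in (0 : ℝ)..(Real.pi / 2 - r), cexp (I * F x))
      + (∫ x in (Real.pi / 2 - r)..(Real.pi / 2 + r), cexp (I * F x)))
      (∫ x in (Real.pi / 2 + r)..(3 * Real.pi / 2 - r), cexp (I * F x))
    have h3 := norm_add_le (∫ x in (0 : ℝ)..(Real.pi / 2 - r), cexp (I * F x))
      (∫ x in (Real.pi / 2 - r)..(Real.pi / 2 + r), cexp (I * F x))
    linarith
  have hj : jb t n = (∫ x in (0 : ℝ)..(2 * Real.pi), cexp (I * F x)) / ((2 * Real.pi : ℝ) : ℂ) := rfl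
  rw [hj, norm_div, Complex.norm_real, Real.norm_eq_abs, abs_of_pos (by positivity : 0 < 2 * Real.pi),
    div_le_iff₀ (by positivity)]
  refine htot.trans ?_
  nlinarith

theorem jb_conj (t : ℝ) (n : ℤ) : (starRingEnd ℂ) (jb t n) = jb (-t) (-n) := by
  unfold jb
  rw [map_div₀, Complex.conj_ofReal, ← intervalIntegral.intervalIntegral_conj]
  congr 1
  apply intervalIntegral.integral_congr
  intro θ _
  simp only []
  rw [← Complex.exp_conj, map_mul, conj_I, conj_ofReal]
  congr 1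
  push_cast
  ring

theorem bes : BesStmt := by
  refine ⟨28, by norm_num, fun t n ht => ?_⟩
  rcases le_total 0 t with h0 | h0
  · rw [abs_of_nonneg h0] at ht ⊢
    exact bes_pos n ht
  · rw [abs_of_nonpos h0] at ht ⊢
    rw [← Complex.norm_conj, jb_conj]
    exact bes_pos (-n) ht

end Pool.Agent.LE.QD.H45
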